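import Mathlib

/-!
Sun's conjecture (2016) on the seven triples `(c1, c2, c3)`: every natural number is a sum
`x² + y² + z² + w²` of squares of natural numbers with `x y (c1 x² + c2 y² + c3 z²)` a square.

It is false for the triple `(42, 98, 14)`: the number `56271` has no such representation.

The proof. Put `W = 3 x² + 7 y² + z²`. If `14 x y W` is a square then `W = D t²` where `D` is the
squarefree part of `14 x y`. For all pairs `x`, `y` and all `t` with `D t²` in the possible range
one of the numbers `D t² - 3 x² - 7 y²` (which should be `z²`) and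
`56271 - x² - y² - (D t² - 3 x² - 7 y²)` (which should be `w²`) is a quadratic non-residue for one of
five moduli. This is checked in the kernel.
-/

set_option autoImplicit false
set_option maxRecDepth 100000

namespace Pool.Agent.Results.MP_dfd283_nt.FailsAt56271

/-! ### Functions for the computation -/

/-- `p i` holds for all `i < n` -/
noncomputable def allBelow (p : ℕ → Bool) (n : ℕ) : Bool :=
  Nat.rec true (fun k ih => and (p k) ih) n

theorem allBelow_spec (p : ℕ → Bool) : ∀ n : ℕ, allBelow p n = true → ∀ i < n, p i = true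
  | 0, _, i, hi => absurd hi (Nat.not_lt_zero i)
  | n + 1, h, i, hi => by
      have h' : (p n && allBelow p n) = true := h
      rw [Bool.and_eq_true] at h'
      rcases Nat.lt_succ_iff_lt_or_eq.1 hi with h1 | h1
      · exact allBelow_spec p n h'.2 i h1
      · rw [h1]; exact h'.1

/-- `f q`, written such that the kernel evaluates `q` first -/
noncomputable def force (q : ℕ) (f : ℕ → Bool) : Bool :=
  Nat.rec (f 0) (fun n _ => f (Nat.succ n)) q

theorem force_eq (q : ℕ) (f : ℕ → Bool) : force q f = f q := by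
  cases q <;> rfl

/-- moduli together with the bit mask of the squares modulo that number -/
def masks : List (ℕ × ℕ) :=
  [(5040, 0x10000000002000010000000000000000002010010000000000200000002010002000000000000000000010000000002000012000200000010000002010000000000000000000000010002001000000003000000000000000002000002000002000011000000010000000000010002000000000210000000000002000200000000001000000002000002000010000000000010001000010002000002000010000000000002000000010201000000000010000002000000000002000210000000010002000002010012000000000000000000010000000202000010000000000000000002010010000200000000001002010003000000000000000200010000001002000012000000000010000002010000000000000200000000010002000000000002000000000200000002000002000202000010000000010000000000010002000000000010001000000003000000000000000200000002000002000011000000000010000000010002000002000211000000000002000000010000000000000010000002000000000002000010001000010002000002010012000000000000000000010001000002000010000200000000000002010210000000000000000002010002000000000001000000010000000002000012000000000010000002010000000200000000001000010002000000000002000200000000001002000002000002000010000000010000001000010202000000000010000000000002000000000201000000000002000002000010000000000210000000010002000002000010001000000002000000010000000200000010000002000001000002000010000200010002001002010213),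 (143, 0x24420611901906682501a304500ec1521b), (323, 0x20853400e2003c1816880a4221020401898041b02232116400bc8857020aa301500828c58460b0213), (667, 0x5000b0a6224144150209298011590a448a0448240812d002319080038044408081a205231d0226380081780900884230200663c100d38289078430480866a204c53c000a384011708640814c52001823812253), (1147, 0x10180432240a842240741e00108a30b100d459120000a6e484402d0104a211801907100408896800700ec88022113000001a1202a000e48511884106a098021d07252010892a08100e4c9068043820c04022432056200611a0c108a0d9920847a62438022c0065021080aa2d1001445970002866c08401c1400e211a921041002418870840240c9c002835212010693)]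

theorem masks_ok : masks.all (fun q => decide (0 < q.1) &&
    allBelow (fun a => Nat.testBit q.2 (a * a % q.1)) q.1) = true := by
  decide +kernel

theorem masks_sq (q : ℕ × ℕ) (hq : q ∈ masks) (a : ℕ) : Nat.testBit q.2 (a * a % q.1) = true := by
  have h := List.all_eq_true.1 masks_ok q hq
  simp only [Bool.and_eq_true, decide_eq_true_eq] at h
  have h2 := allBelow_spec _ _ h.2 (a % q.1) (Nat.mod_lt _ h.1)
  rwa [← Nat.mul_mod] at h2

/-- the number is a non-residue for one of the moduli -/
noncomputable def nonsq (v : ℕ) : Bool :=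
  force v fun v => masks.any fun q => not (Nat.testBit q.2 (Nat.mod v q.1))

theorem nonsq_spec (v : ℕ) (h : nonsq v = true) : ¬ IsSquare v := by
  rintro ⟨a, rfl⟩
  rw [nonsq, force_eq] at h
  obtain ⟨q, hq, h2⟩ := List.any_eq_true.1 h
  have h3 : Nat.testBit q.2 (Nat.mod (a * a) q.1) = true := masks_sq q hq a
  rw [h3] at h2
  simp at h2

/-- product of two squarefree numbers divided by the square of their greatest common divisor -/
def comb (a b : ℕ) : ℕ := Nat.mul (Nat.div a (Nat.gcd a b)) (Nat.div b (Nat.gcd a b))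

theorem comb_spec (a b : ℕ) (ha : Squarefree a) (hb : Squarefree b) :
    Squarefree (comb a b) ∧ a * b = comb a b * (Nat.gcd a b) ^ 2 := by
  have ha0 : 0 < a := Nat.pos_of_ne_zero ha.ne_zero
  have hg : 0 < Nat.gcd a b := Nat.gcd_pos_of_pos_left b ha0
  have e1 : Nat.gcd a b * (a / Nat.gcd a b) = a := Nat.mul_div_cancel' (Nat.gcd_dvd_left a b)
  have e2 : Nat.gcd a b * (b / Nat.gcd a b) = b := Nat.mul_div_cancel' (Nat.gcd_dvd_right a b)
  have hc : comb a b = (a / Nat.gcd a b) * (b / Nat.gcd a b) := rfl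
  have hcop : Nat.Coprime (a / Nat.gcd a b) (b / Nat.gcd a b) := Nat.coprime_div_gcd_div_gcd hg
  refine ⟨?_, ?_⟩
  · rw [hc, Nat.squarefree_mul hcop]
    exact ⟨ha.squarefree_of_dvd ⟨_, (by rw [mul_comm]; exact e1.symm)⟩,
      hb.squarefree_of_dvd ⟨_, (by rw [mul_comm]; exact e2.symm)⟩⟩
  · rw [hc]
    calc a * b = (Nat.gcd a b * (a / Nat.gcd a b)) * (Nat.gcd a b * (b / Nat.gcd a b)) := by
          rw [e1, e2]
      _ = _ := by ring

/-- the loop over `t`: whenever `W0 < D t² ≤ W0 + A`, one of `D t² - W0`, `A - (D t² - W0)` is not a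
square -/
noncomputable def loop (D W0 A f : ℕ) : ℕ → Bool :=
  Nat.rec (fun _ => false) (fun _ ih t => force t fun t => force (Nat.mul D (Nat.mul t t)) fun W =>
    or (Nat.blt (Nat.add W0 A) W) (and (or (Nat.ble W W0) (or (nonsq (Nat.sub W W0))
      (nonsq (Nat.sub A (Nat.sub W W0))))) (ih (Nat.succ t)))) f

theorem loop_spec (D W0 A : ℕ) : ∀ f t : ℕ, loop D W0 A f t = true → ∀ u : ℕ, t ≤ u →
    W0 < D * (u * u) → D * (u * u) ≤ W0 + A →
    ¬ (IsSquare (D * (u * u) - W0) ∧ IsSquare (A - (D * (u * u) - W0)))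
  | 0, t, h, _, _, _, _ => by
      have h' : false = true := h
      exact absurd h' (by simp)
  | f + 1, t, h, u, hu, h1, h2 => by
      have h' : (force t fun t => force (D * (t * t)) fun W => (Nat.blt (W0 + A) W ||
        ((Nat.ble W W0 || (nonsq (W - W0) || nonsq (A - (W - W0)))) &&
          loop D W0 A f (t + 1)))) = true := h
      rw [force_eq, force_eq, Bool.or_eq_true, Bool.and_eq_true, Bool.or_eq_true,
        Bool.or_eq_true] at h'
      rcases h' with h3 | ⟨h3, h4⟩
      · exfalso
        have h5 : W0 + A < D * (t * t) := Nat.blt_eq.mp h3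
        have h6 : D * (t * t) ≤ D * (u * u) :=
          Nat.mul_le_mul_left D (Nat.mul_le_mul hu hu)
        omega
      · rcases Nat.eq_or_lt_of_le hu with h5 | h5
        · subst h5
          rcases h3 with h6 | h6 | h6
          · have := Nat.ble_eq.mp h6
            omega
          · exact fun h => nonsq_spec _ h6 h.1
          · exact fun h => nonsq_spec _ h6 h.2
        · exact loop_spec D W0 A f (t + 1) h4 u h5 h1 h2

/-- the test for one pair `x`, `y` with squarefree parts `a`, `b` -/
noncomputable def test (x a y b : ℕ) : Bool :=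
  or (Nat.beq (Nat.mod x 4) 0) (or (Nat.beq (Nat.mod y 4) 0)
  (or (and (Nat.beq (Nat.mod x 2) 0) (Nat.beq (Nat.mod y 2) 0))
  (force (comb a b) fun c => force (comb 14 c) fun D =>
    force (Nat.add (Nat.mul 3 (Nat.mul x x)) (Nat.mul 7 (Nat.mul y y))) fun W0 =>
    force (Nat.sub 56271 (Nat.add (Nat.mul x x) (Nat.mul y y))) fun A =>
    loop D W0 A 640 1)))

/-! ### The table of squarefree parts -/

/-- table, part 0 -/
def L0 : List (ℕ × ℕ × ℕ) := [
   (1, 1, 1), (2, 2, 1), (3, 3, 1), (4, 1, 2), (5, 5, 1), (6, 6, 1), (7, 7, 1), (8, 2, 2),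
   (9, 1, 3), (10, 10, 1), (11, 11, 1), (12, 3, 2), (13, 13, 1), (14, 14, 1), (15, 15, 1),
   (16, 1, 4), (17, 17, 1), (18, 2, 3), (19, 19, 1), (20, 5, 2), (21, 21, 1), (22, 22, 1),
   (23, 23, 1), (24, 6, 2), (25, 1, 5), (26, 26, 1), (27, 3, 3), (28, 7, 2), (29, 29, 1),
   (30, 30, 1)]

/-- table, part 1 -/
def L1 : List (ℕ × ℕ × ℕ) := [
   (31, 31, 1), (32, 2, 4), (33, 33, 1), (34, 34, 1), (35, 35, 1), (36, 1, 6), (37, 37, 1),
   (38, 38, 1), (39, 39, 1), (40, 10, 2), (41, 41, 1), (42, 42, 1), (43, 43, 1), (44, 11,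
   2), (45, 5, 3), (46, 46, 1), (47, 47, 1), (48, 3, 4), (49, 1, 7), (50, 2, 5), (51, 51,
   1), (52, 13, 2), (53, 53, 1), (54, 6, 3), (55, 55, 1), (56, 14, 2), (57, 57, 1), (58, 58,
   1), (59, 59, 1), (60, 15, 2)]

/-- table, part 2 -/
def L2 : List (ℕ × ℕ × ℕ) := [
   (61, 61, 1), (62, 62, 1), (63, 7, 3), (64, 1, 8), (65, 65, 1), (66, 66, 1), (67, 67, 1),
   (68, 17, 2), (69, 69, 1), (70, 70, 1), (71, 71, 1), (72, 2, 6), (73, 73, 1), (74, 74, 1),
   (75, 3, 5), (76, 19, 2), (77, 77, 1), (78, 78, 1), (79, 79, 1), (80, 5, 4), (81, 1, 9),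
   (82, 82, 1), (83, 83, 1), (84, 21, 2), (85, 85, 1), (86, 86, 1), (87, 87, 1), (88, 22,
   2), (89, 89, 1), (90, 10, 3)]

/-- table, part 3 -/
def L3 : List (ℕ × ℕ × ℕ) := [
   (91, 91, 1), (92, 23, 2), (93, 93, 1), (94, 94, 1), (95, 95, 1), (96, 6, 4), (97, 97, 1),
   (98, 2, 7), (99, 11, 3), (100, 1, 10), (101, 101, 1), (102, 102, 1), (103, 103, 1), (104,
   26, 2), (105, 105, 1), (106, 106, 1), (107, 107, 1), (108, 3, 6), (109, 109, 1), (110,
   110, 1), (111, 111, 1), (112, 7, 4), (113, 113, 1), (114, 114, 1), (115, 115, 1), (116,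
   29, 2), (117, 13, 3), (118, 118, 1), (119, 119, 1), (120, 30, 2)]

/-- table, part 4 -/
def L4 : List (ℕ × ℕ × ℕ) := [
   (121, 1, 11), (122, 122, 1), (123, 123, 1), (124, 31, 2), (125, 5, 5), (126, 14, 3),
   (127, 127, 1), (128, 2, 8), (129, 129, 1), (130, 130, 1), (131, 131, 1), (132, 33, 2),
   (133, 133, 1), (134, 134, 1), (135, 15, 3), (136, 34, 2), (137, 137, 1), (138, 138, 1),
   (139, 139, 1), (140, 35, 2), (141, 141, 1), (142, 142, 1), (143, 143, 1), (144, 1, 12),
   (145, 145, 1), (146, 146, 1), (147, 3, 7), (148, 37, 2), (149, 149, 1), (150, 6, 5)]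

/-- table, part 5 -/
def L5 : List (ℕ × ℕ × ℕ) := [
   (151, 151, 1), (152, 38, 2), (153, 17, 3), (154, 154, 1), (155, 155, 1), (156, 39, 2),
   (157, 157, 1), (158, 158, 1), (159, 159, 1), (160, 10, 4), (161, 161, 1), (162, 2, 9),
   (163, 163, 1), (164, 41, 2), (165, 165, 1), (166, 166, 1), (167, 167, 1), (168, 42, 2),
   (169, 1, 13), (170, 170, 1), (171, 19, 3), (172, 43, 2), (173, 173, 1), (174, 174, 1),
   (175, 7, 5), (176, 11, 4), (177, 177, 1), (178, 178, 1), (179, 179, 1), (180, 5, 6)]

/-- table, part 6 -/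
def L6 : List (ℕ × ℕ × ℕ) := [
   (181, 181, 1), (182, 182, 1), (183, 183, 1), (184, 46, 2), (185, 185, 1), (186, 186, 1),
   (187, 187, 1), (188, 47, 2), (189, 21, 3), (190, 190, 1), (191, 191, 1), (192, 3, 8),
   (193, 193, 1), (194, 194, 1), (195, 195, 1), (196, 1, 14), (197, 197, 1), (198, 22, 3),
   (199, 199, 1), (200, 2, 10), (201, 201, 1), (202, 202, 1), (203, 203, 1), (204, 51, 2),
   (205, 205, 1), (206, 206, 1), (207, 23, 3), (208, 13, 4), (209, 209, 1), (210, 210, 1)]

/-- table, part 7 -/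
def L7 : List (ℕ × ℕ × ℕ) := [
   (211, 211, 1), (212, 53, 2), (213, 213, 1), (214, 214, 1), (215, 215, 1), (216, 6, 6),
   (217, 217, 1), (218, 218, 1), (219, 219, 1), (220, 55, 2), (221, 221, 1), (222, 222, 1),
   (223, 223, 1), (224, 14, 4), (225, 1, 15), (226, 226, 1), (227, 227, 1), (228, 57, 2),
   (229, 229, 1), (230, 230, 1), (231, 231, 1), (232, 58, 2), (233, 233, 1), (234, 26, 3),
   (235, 235, 1), (236, 59, 2), (237, 237, 1)]

/-- the table of the triples `(y, b, k)` with `y = b k²`, `b` squarefree, for `y < 238` -/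
def L : List (ℕ × ℕ × ℕ) := L0 ++ L1 ++ L2 ++ L3 ++ L4 ++ L5 ++ L6 ++ L7

/-- no square of a number from `2` to `15` divides `b` -/
noncomputable def sqf (b : ℕ) : Bool :=
  allBelow (fun p => or (Nat.blt p 2) (not (Nat.beq (Nat.mod b (Nat.mul p p)) 0))) 16

theorem sqf_spec (b : ℕ) (h0 : 0 < b) (h1 : b < 256) (h : sqf b = true) : Squarefree b := by
  intro p hp
  have hle : p * p ≤ b := Nat.le_of_dvd h0 hp
  have hlt : p < 16 := by
    by_contra hc
    push Not at hc
    have : 16 * 16 ≤ p * p := Nat.mul_le_mul hc hc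
    omega
  have h2 : (Nat.blt p 2 || !(Nat.beq (b % (p * p)) 0)) = true := allBelow_spec _ _ h p hlt
  rw [Bool.or_eq_true] at h2
  rcases h2 with h2 | h2
  · have h3 : p < 2 := Nat.blt_eq.mp h2
    interval_cases p
    · simp at hp; omega
    · exact isUnit_one
  · exfalso
    rw [Nat.mod_eq_zero_of_dvd hp] at h2
    exact absurd h2 (by decide)

theorem L_ok : L.all (fun q => and (Nat.beq q.1 (Nat.mul q.2.1 (Nat.mul q.2.2 q.2.2)))
    (and (Nat.blt 0 q.2.1) (and (Nat.blt q.2.1 256) (sqf q.2.1)))) = true := by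
  decide +kernel

theorem L_mem : allBelow (fun y => or (Nat.beq y 0) (L.any fun q => Nat.beq q.1 y)) 238 = true := by
  decide +kernel

theorem L_spec (y : ℕ) (h0 : 0 < y) (h1 : y < 238) : ∃ b k : ℕ, (y, b, k) ∈ L ∧
    y = b * (k * k) ∧ Squarefree b := by
  have h2 : (Nat.beq y 0 || (L.any fun q => Nat.beq q.1 y)) = true := allBelow_spec _ _ L_mem y h1
  rw [Bool.or_eq_true] at h2
  rcases h2 with h2 | h2
  · have := Nat.eq_of_beq_eq_true h2
    omega
  · obtain ⟨q, hq, h3⟩ := List.any_eq_true.1 h2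
    have h4 : q.1 = y := Nat.eq_of_beq_eq_true h3
    have h5 := List.all_eq_true.1 L_ok q hq
    rw [Bool.and_eq_true, Bool.and_eq_true, Bool.and_eq_true] at h5
    obtain ⟨h6, h7, h8, h9⟩ := h5
    refine ⟨q.2.1, q.2.2, ?_, ?_, sqf_spec _ (Nat.blt_eq.mp h7) (Nat.blt_eq.mp h8) h9⟩
    · rw [← h4]; exact hq
    · rw [← h4]; exact Nat.eq_of_beq_eq_true h6

/-! ### The computation -/

/-- the test for all pairs with first entry `p` -/
noncomputable def rowTest (p : ℕ × ℕ × ℕ) : Bool := L.all fun q => test p.1 p.2.1 q.1 q.2.1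

theorem rows0 : L0.all rowTest = true := by
  decide +kernel

theorem rows1 : L1.all rowTest = true := by
  decide +kernel

theorem rows2 : L2.all rowTest = true := by
  decide +kernel

theorem rows3 : L3.all rowTest = true := by
  decide +kernel

theorem rows4 : L4.all rowTest = true := by
  decide +kernel

theorem rows5 : L5.all rowTest = true := by
  decide +kernel

theorem rows6 : L6.all rowTest = true := by
  decide +kernel

theorem rows7 : L7.all rowTest = true := by
  decide +kernel

theorem rows (p q : ℕ × ℕ × ℕ) (hp : p ∈ L) (hq : q ∈ L) :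
    test p.1 p.2.1 q.1 q.2.1 = true := by
  have h : (L0 ++ L1 ++ L2 ++ L3 ++ L4 ++ L5 ++ L6 ++ L7).all rowTest = true := by
    simp only [List.all_append, rows0, rows1, rows2, rows3, rows4, rows5, rows6, rows7,
      Bool.and_self]
  have h1 : rowTest p = true := List.all_eq_true.1 h p hp
  exact List.all_eq_true.1 h1 q hq

/-! ### The theorem -/

/-- squares modulo `8` -/
theorem sq_mod (x : ℕ) : (x % 2 = 1 ∧ x ^ 2 % 8 = 1) ∨ (x % 4 = 2 ∧ x ^ 2 % 8 = 4) ∨
    (x % 4 = 0 ∧ x ^ 2 % 8 = 0) := by
  have h1 : x ^ 2 % 8 = (x % 8) ^ 2 % 8 := by rw [Nat.pow_mod]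
  have h2 : x % 8 < 8 := Nat.mod_lt _ (by norm_num)
  have h3 : x % 8 % 2 = x % 2 := Nat.mod_mod_of_dvd x (by norm_num)
  have h4 : x % 8 % 4 = x % 4 := Nat.mod_mod_of_dvd x (by norm_num)
  rw [h1, ← h3, ← h4]
  generalize x % 8 = r at *
  interval_cases r <;> simp

theorem lt238 (x t : ℕ) (h : x ^ 2 + t = 56271) : x < 238 := by
  by_contra hc
  push Not at hc
  have : 238 ^ 2 ≤ x ^ 2 := Nat.pow_le_pow_left hc 2
  omega

/-- if `D g² W` is a square and `D` is squarefree then `W = D t²` -/
theorem key (D g W s : ℕ) (hD : Squarefree D) (hg : 0 < g) (h : D * g ^ 2 * W = s * s) :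
    ∃ t : ℕ, W = D * (t * t) := by
  have hD0 : 0 < D := Nat.pos_of_ne_zero hD.ne_zero
  have h1 : g ^ 2 ∣ s ^ 2 := ⟨D * W, by rw [pow_two s, ← h]; ring⟩
  obtain ⟨r, rfl⟩ := (Nat.pow_dvd_pow_iff two_ne_zero).1 h1
  have h2 : D * W = r ^ 2 := by
    have : g ^ 2 * (D * W) = g ^ 2 * r ^ 2 := by
      calc g ^ 2 * (D * W) = D * g ^ 2 * W := by ring
        _ = g ^ 2 * r ^ 2 := by rw [h]; ring
    exact Nat.eq_of_mul_eq_mul_left (by positivity) this
  have h3 : D ∣ r ^ 2 := ⟨W, h2.symm⟩
  obtain ⟨t, rfl⟩ := (hD.dvd_pow_iff_dvd two_ne_zero).1 h3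
  refine ⟨t, Nat.eq_of_mul_eq_mul_left hD0 ?_⟩
  rw [h2]; ring

/-- For the triple `(42, 98, 14)` of Sun's list the number `56271` is not of the required form. -/
theorem result : ∃ c ∈ ({(1, 8, 20), (3, 5, 15), (6, 14, 4), (7, 29, 5), (18, 38, 18),
      (39, 81, 51), (42, 98, 14)} : Set (ℕ × ℕ × ℕ)), ∃ n : ℕ, ∀ x y z w : ℕ,
      n = x ^ 2 + y ^ 2 + z ^ 2 + w ^ 2 →
      ¬ IsSquare (x * y * (c.1 * x ^ 2 + c.2.1 * y ^ 2 + c.2.2 * z ^ 2)) := by
  refine ⟨(42, 98, 14), by simp, 56271, ?_⟩
  intro x y z w hn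
  show ¬ IsSquare (x * y * (42 * x ^ 2 + 98 * y ^ 2 + 14 * z ^ 2))
  rintro ⟨s, hs⟩
  have hx := lt238 x (y ^ 2 + z ^ 2 + w ^ 2) (by omega)
  have hy := lt238 y (x ^ 2 + z ^ 2 + w ^ 2) (by omega)
  have mx := sq_mod x
  have my := sq_mod y
  have mz := sq_mod z
  have mw := sq_mod w
  have hx4 : x % 4 ≠ 0 := by omega
  have hy4 : y % 4 ≠ 0 := by omega
  have hxy : ¬ (x % 2 = 0 ∧ y % 2 = 0) := by omega
  have hz2 : z ^ 2 ≠ 0 := by
    intro h
    rw [h] at mz hn
    omega
  obtain ⟨a, h, haL, ha, hasq⟩ := L_spec x (by omega) hx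
  obtain ⟨b, k, hbL, hb, hbsq⟩ := L_spec y (by omega) hy
  have ht : test x a y b = true := rows _ _ haL hbL
  obtain ⟨hc1, hc2⟩ := comb_spec a b hasq hbsq
  have h14 : Squarefree (14 : ℕ) := sqf_spec 14 (by norm_num) (by norm_num) (by decide +kernel)
  obtain ⟨hD1, hD2⟩ := comb_spec 14 (comb a b) h14 hc1
  have ht' : (Nat.beq (x % 4) 0 || (Nat.beq (y % 4) 0 ||
      ((Nat.beq (x % 2) 0 && Nat.beq (y % 2) 0) ||
      (force (comb a b) fun c => force (comb 14 c) fun D =>
        force (3 * (x * x) + 7 * (y * y)) fun W0 => force (56271 - (x * x + y * y)) fun A =>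
        loop D W0 A 640 1)))) = true := ht
  rw [force_eq, force_eq, force_eq, force_eq, Bool.or_eq_true, Bool.or_eq_true, Bool.or_eq_true,
    Bool.and_eq_true] at ht'
  have hloop : loop (comb 14 (comb a b)) (3 * (x * x) + 7 * (y * y)) (56271 - (x * x + y * y))
      640 1 = true := by
    rcases ht' with h1 | h1 | ⟨h1, h2⟩ | h1
    · exact absurd (Nat.eq_of_beq_eq_true h1) hx4
    · exact absurd (Nat.eq_of_beq_eq_true h1) hy4
    · exact absurd ⟨Nat.eq_of_beq_eq_true h1, Nat.eq_of_beq_eq_true h2⟩ hxy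
    · exact h1
  -- the square condition
  have ha0 : 0 < a := Nat.pos_of_ne_zero hasq.ne_zero
  have hh : h ≠ 0 := by
    rintro rfl
    rw [ha] at hx4
    simp at hx4
  have hk : k ≠ 0 := by
    rintro rfl
    rw [hb] at hy4
    simp at hy4
  have e1 : comb 14 (comb a b) *
      (Nat.gcd 14 (comb a b) * Nat.gcd a b * h * k) ^ 2 * (3 * x ^ 2 + 7 * y ^ 2 + z ^ 2) =
      s * s := by
    rw [← hs]
    have e2 : 14 * (x * y) = comb 14 (comb a b) *
        (Nat.gcd 14 (comb a b) * Nat.gcd a b * h * k) ^ 2 := by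
      calc 14 * (x * y) = 14 * (a * b) * (h * k) ^ 2 := by
            conv_lhs => rw [ha, hb]
            ring
        _ = (14 * comb a b) * (Nat.gcd a b * h * k) ^ 2 := by rw [hc2]; ring
        _ = _ := by rw [hD2]; ring
    rw [← e2]; ring
  have hg : 0 < Nat.gcd 14 (comb a b) * Nat.gcd a b * h * k := by
    have g1 : 0 < Nat.gcd 14 (comb a b) := Nat.gcd_pos_of_pos_left _ (by norm_num)
    have g2 : 0 < Nat.gcd a b := Nat.gcd_pos_of_pos_left _ ha0
    have g3 : 0 < h := Nat.pos_of_ne_zero hh
    have g4 : 0 < k := Nat.pos_of_ne_zero hk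
    positivity
  obtain ⟨t, htW⟩ := key _ _ _ _ hD1 hg e1
  have htW' : comb 14 (comb a b) * (t * t) = 3 * (x * x) + 7 * (y * y) + z * z := by
    rw [← htW]; ring
  have hn' : 56271 = x * x + y * y + z * z + w * w := by rw [hn]; ring
  have hz3 : 0 < z * z := by
    rw [← pow_two]; exact Nat.pos_of_ne_zero hz2
  have ht1 : 1 ≤ t := by
    rcases Nat.eq_zero_or_pos t with h0 | h0
    · exfalso
      rw [h0, Nat.mul_zero] at htW'
      omega
    · exact h0
  refine loop_spec _ _ _ _ _ hloop t ht1 (by omega) (by omega) ⟨⟨z, by omega⟩, ⟨w, by omega⟩⟩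

end Pool.Agent.Results.MP_dfd283_nt.FailsAt56271
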